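import Pool.Agent.H51.Ham.Main
import Pool.Agent.H51.Ham.Avg
import Pool.Agent.H82.Ham.Basic

/-!
The excess of `f(n,d)` over the independence number `3^(n-1)` of the Hamming graph `H(n,3)`, relative
to `3^(n-1)`, is `O((d/n)^A)` for every `A`.
-/

set_option autoImplicit false

namespace Pool.Agent.Results.MP_e7dccd_co.FasterThanAnyPower

open Finset H51Ham

/-- the number of directions with an edge at `x` is at most the degree of `x` -/
theorem directions_le {n d : ℕ} {W : Finset (H82Ham.V n)} (h : H82Ham.IndDeg W d)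
    (x : H82Ham.V n) (hx : x ∈ W) :
    (open Classical in (univ.filter (fun i => Edge W i x)).card) ≤ d := by
  classical
  have h1 := h x hx
  rw [H82Ham.degree_eq] at h1
  refine le_trans ?_ h1
  have h2 : (univ.filter (fun i => Edge W i x)) ⊆
      ((univ : Finset (Fin n × ZMod 3)).filter
        (fun p => p.2 ≠ x p.1 ∧ Function.update x p.1 p.2 ∈ W)).image Prod.fst := by
    intro i hi
    rw [mem_filter] at hi
    obtain ⟨-, -, a, ha, haW⟩ := hi
    rw [mem_image]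
    exact ⟨(i, a), by simp [ha, haW], rfl⟩
  refine (card_le_card ?_).trans ((card_le_card h2).trans card_image_le)
  intro i hi
  simpa using hi

theorem f_le_pow (n d : ℕ) : H82Ham.f n d ≤ 3 ^ n :=
  H82Ham.f_le fun U _ => by
    have := Finset.card_le_univ U
    rwa [H82Ham.card_V] at this

/-- for every `A` there is `C` with `f(n,d) ≤ 3^(n-1) (1 + C (d/n)^A)` for all `n, d ≥ 1` -/
theorem result : ∀ A : ℕ, ∃ C : ℝ, ∀ n d : ℕ, 1 ≤ n → 1 ≤ d →
    (H82Ham.f n d : ℝ) ≤ 3 ^ (n - 1) * (1 + C * ((d : ℝ) / n) ^ A) := by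
  intro A
  rcases A with _ | p
  · refine ⟨2, fun n d hn _ => ?_⟩
    have h1 : (H82Ham.f n d : ℝ) ≤ 3 ^ n := by exact_mod_cast f_le_pow n d
    obtain ⟨k, rfl⟩ : ∃ k, n = k + 1 := ⟨n - 1, by omega⟩
    rw [pow_zero, Nat.add_sub_cancel]
    rw [pow_succ] at h1
    linarith
  · obtain ⟨C, hC⟩ := avg_bound p (mL p)
    refine ⟨C, fun n d hn hd => ?_⟩
    obtain ⟨W, hW, hc⟩ := H82Ham.exists_f n d
    have h1 := hC n d W hn hd (fun x hx => directions_le hW x hx) (fun b D hD hO => by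
      have := lemmaL W p b D (by rw [hD]) hO
      rwa [hD] at this)
    rw [hc] at h1
    have h2 : 3 * (H82Ham.f n d : ℝ) * n ^ (p + 1) ≤
        3 ^ n * n ^ (p + 1) + C * 3 ^ n * d ^ (p + 1) := by exact_mod_cast h1
    have hn0 : (0 : ℝ) < n ^ (p + 1) := by positivity
    obtain ⟨k, rfl⟩ : ∃ k, n = k + 1 := ⟨n - 1, by omega⟩
    rw [Nat.add_sub_cancel, div_pow]
    rw [pow_succ (3 : ℝ) k] at h2
    have h3 : (H82Ham.f (k + 1) d : ℝ) * ((k + 1 : ℕ) : ℝ) ^ (p + 1) ≤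
        (3 ^ k * (1 + C * ((d : ℝ) ^ (p + 1) / ((k + 1 : ℕ) : ℝ) ^ (p + 1)))) *
          ((k + 1 : ℕ) : ℝ) ^ (p + 1) := by
      have h4 : (3 ^ k * (1 + C * ((d : ℝ) ^ (p + 1) / ((k + 1 : ℕ) : ℝ) ^ (p + 1)))) *
          ((k + 1 : ℕ) : ℝ) ^ (p + 1) =
          3 ^ k * ((k + 1 : ℕ) : ℝ) ^ (p + 1) + C * 3 ^ k * (d : ℝ) ^ (p + 1) := by
        field_simp
      rw [h4]
      linarith
    exact le_of_mul_le_mul_right h3 hn0

end Pool.Agent.Results.MP_e7dccd_co.FasterThanAnyPower
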