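import Pool.Agent.H82.Ham.Asym

/-! `H82Ham.f n d` (file `Pool/Agent/H82/Ham/Basic.lean`) is the largest size of a set
`U ⊆ (ZMod 3)^n` every vertex of which has at most `d` vertices of `U` at Hamming distance one. -/

namespace Pool.Agent.Results.MP_e7dccd_co.SharpRatios

open Filter Topology H82Ham

theorem result :
    (∀ n d : ℕ, 3 * ((2 * (n : ℤ) - (d : ℤ)) * (f n d : ℤ)) ≤ 2 * (n : ℤ) * 3 ^ n) ∧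
    (∀ n d : ℕ, (4 * (n : ℤ) - (d : ℤ)) * (f n d : ℤ) ≤ 2 * (n : ℤ) * 3 ^ n) ∧
    (∀ r : ℕ, 1 ≤ r → f (2 * r) r = 4 * 3 ^ (2 * r - 2)) ∧
    (∀ r j : ℕ, 1 ≤ r → 1 ≤ j → f (r * ((3 ^ j - 1) / 2)) (r * (3 ^ j - 2))
      = 3 ^ (r * ((3 ^ j - 1) / 2)) - 3 ^ (r * ((3 ^ j - 1) / 2) - j)) ∧
    (∀ k : ℕ, 2 ≤ k → Tendsto (fun n : ℕ => (f n (2 * (k - 1) * n / (3 * k)) : ℝ) / 3 ^ n) atTop
      (𝓝 ((k : ℝ) / (2 * k + 1)))) ∧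
    Tendsto (fun n : ℕ => (f n (2 * n / 3) : ℝ) / 3 ^ n) atTop (𝓝 (1 / 2)) ∧
    (∀ N : ℕ, 3 ≤ N → Tendsto (fun n : ℕ => (f n ((N - 2) * n / (N - 1)) : ℝ) / 3 ^ n) atTop
      (𝓝 (2 * ((N : ℝ) - 1) / (3 * N)))) ∧
    (∀ M : ℕ, 3 ≤ M → Tendsto (fun n : ℕ => (f n (2 * (M - 2) * n / (M - 1)) : ℝ) / 3 ^ n) atTop
      (𝓝 (1 - 1 / (M : ℝ)))) :=
  ⟨f_bound_one, f_bound_two, f_two, f_simplex, asym_C, asym_half, asym_B, asym_A⟩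

end Pool.Agent.Results.MP_e7dccd_co.SharpRatios
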